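import Pool.Agent.R234.Lem.Defs

set_option autoImplicit false

open Metric Set Filter Topology
open scoped ContDiff ENNReal

namespace Pool.Agent.R234.Lem

section General
variable {E : Type*} [NormedAddCommGroup E] [NormedSpace ℂ E]

lemma lempert_lt_iff {D : Set E} {z w : E} {b : ℝ≥0∞} :
    lempert D z w < b ↔ ∃ l : ℂ, ‖l‖ < 1 ∧ (∃ f : ℂ → E, HolDisc D f ∧ f 0 = z ∧ f l = w) ∧
      ENNReal.ofReal (Real.artanh ‖l‖) < b := by
  simp only [lempert, iInf_lt_iff, exists_prop]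

lemma lempert_le {D : Set E} {z w : E} {l : ℂ} (hl : ‖l‖ < 1) {f : ℂ → E} (hf : HolDisc D f)
    (h0 : f 0 = z) (h1 : f l = w) : lempert D z w ≤ ENNReal.ofReal (Real.artanh ‖l‖) :=
  iInf_le_of_le l (iInf_le_of_le hl (iInf_le_of_le ⟨f, hf, h0, h1⟩ le_rfl))

/-- correcting the end points of a disc -/
lemma correct {D : Set E} {f : ℂ → E} {z w z' w' : E} {l : ℂ} {η : ℝ}
    (hd : DifferentiableOn ℂ f (ball 0 1)) (hl0 : l ≠ 0) (hl1 : ‖l‖ < 1)
    (hf : ∀ ζ ∈ ball (0 : ℂ) 1, ball (f ζ) η ⊆ D) (h0 : f 0 = z) (h1 : f l = w)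
    (hη : ‖z' - z‖ * (1 + 1 / ‖l‖) + ‖w' - w‖ / ‖l‖ < η) :
    lempert D z' w' ≤ ENNReal.ofReal (Real.artanh ‖l‖) := by
  have hlp : 0 < ‖l‖ := norm_pos_iff.mpr hl0
  refine lempert_le (f := fun ζ => f ζ + ((1 - ζ / l) • (z' - z) + (ζ / l) • (w' - w))) hl1
    ⟨?_, ?_⟩ ?_ ?_
  · refine hd.add ?_
    apply Differentiable.differentiableOn
    fun_prop
  · intro ζ hζ
    apply hf ζ hζ
    have hζ1 : ‖ζ‖ < 1 := by simpa using hζ
    rw [mem_ball, dist_eq_norm, add_sub_cancel_left]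
    have e1 : ‖(1 : ℂ) - ζ / l‖ ≤ 1 + 1 / ‖l‖ := by
      refine (norm_sub_le _ _).trans ?_
      rw [norm_one, norm_div]
      gcongr
    have e2 : ‖ζ / l‖ ≤ 1 / ‖l‖ := by
      rw [norm_div]; gcongr
    calc ‖(1 - ζ / l) • (z' - z) + (ζ / l) • (w' - w)‖
        ≤ ‖(1 - ζ / l) • (z' - z)‖ + ‖(ζ / l) • (w' - w)‖ := norm_add_le _ _
      _ = ‖1 - ζ / l‖ * ‖z' - z‖ + ‖ζ / l‖ * ‖w' - w‖ := by rw [norm_smul, norm_smul]
      _ ≤ (1 + 1 / ‖l‖) * ‖z' - z‖ + (1 / ‖l‖) * ‖w' - w‖ := by gcongr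
      _ = ‖z' - z‖ * (1 + 1 / ‖l‖) + ‖w' - w‖ / ‖l‖ := by ring
      _ < η := hη
  · simp [h0]
  · simp [h1, div_self hl0]

/-- upper semicontinuity -/
lemma usc {D : Set E} (hD : IsOpen D) {z w : E} (hz : z ∈ D) {b : ℝ≥0∞} (hb : lempert D z w < b) :
    ∀ᶠ p : E × E in 𝓝 (z, w), lempert D p.1 p.2 < b := by
  obtain ⟨l, hl, ⟨f, ⟨hfd, hfm⟩, h0, h1⟩, hlb⟩ := lempert_lt_iff.mp hb
  rcases eq_or_ne l 0 with rfl | hl0
  · -- the diagonal
    have hzw : z = w := by rw [← h0, ← h1]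
    subst hzw
    have hb0 : 0 < b := lt_of_le_of_lt bot_le hb
    obtain ⟨η, hη, hηD⟩ := Metric.isOpen_iff.mp hD z hz
    -- choose c small with artanh c < b
    have hcont : Tendsto (fun c : ℝ => ENNReal.ofReal (Real.artanh c)) (𝓝[>] 0) (𝓝 0) := by
      have h1 : Tendsto (fun c : ℝ => Real.artanh c) (𝓝[>] 0) (𝓝 0) := by
        have : ContinuousAt Real.artanh 0 := by
          unfold Real.artanh
          fun_prop (disch := norm_num)
        have h2 := this.tendsto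
        rw [Real.artanh_zero] at h2
        exact h2.mono_left nhdsWithin_le_nhds
      have := (ENNReal.continuous_ofReal.tendsto 0).comp h1
      rw [ENNReal.ofReal_zero] at this
      exact this
    have hev : ∀ᶠ c : ℝ in 𝓝[>] 0, ENNReal.ofReal (Real.artanh c) < b :=
      hcont.eventually (gt_mem_nhds hb0)
    have hev2 : ∀ᶠ c : ℝ in 𝓝[>] 0, c < 1 :=
      nhdsWithin_le_nhds (gt_mem_nhds (by norm_num))
    obtain ⟨c, hc1, hc2, hc0⟩ := (hev.and (hev2.and self_mem_nhdsWithin)).exists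
    have hc0 : 0 < c := hc0
    have hopen : ∀ᶠ p : E × E in 𝓝 (z, z),
        ‖p.1 - z‖ * (1 + 1 / c) + ‖p.2 - z‖ / c < η := by
      have : ContinuousAt (fun p : E × E => ‖p.1 - z‖ * (1 + 1 / c) + ‖p.2 - z‖ / c) (z, z) := by
        fun_prop
      apply this.eventually_lt continuousAt_const
      simpa using hη
    filter_upwards [hopen] with p hp
    have hnc : ‖(c : ℂ)‖ = c := by simp [abs_of_pos hc0]
    refine lt_of_le_of_lt (correct (D := D) (f := fun _ => z) (z := z) (w := z) (l := (c : ℂ))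
      (η := η) (differentiableOn_const z) (by exact_mod_cast hc0.ne') (by rw [hnc]; exact hc2)
      (fun _ _ => hηD) rfl rfl (by rw [hnc]; exact hp)) ?_
    rw [hnc]; exact hc1
  · have hlp : 0 < ‖l‖ := norm_pos_iff.mpr hl0
    -- choose s < 1 with |l|/s < 1 and artanh small
    have hcont : Tendsto (fun s : ℝ => ENNReal.ofReal (Real.artanh (‖l‖ / s))) (𝓝[<] 1)
        (𝓝 (ENNReal.ofReal (Real.artanh ‖l‖))) := by
      have h1 : ContinuousAt (fun s : ℝ => Real.artanh (‖l‖ / s)) 1 := by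
        have h2 : ContinuousAt Real.artanh (‖l‖ / 1) := by
          unfold Real.artanh
          have h3 : (1 : ℝ) - ‖l‖ / 1 ≠ 0 := by rw [div_one]; linarith
          have h4 : √((1 + ‖l‖ / 1) / (1 - ‖l‖ / 1)) ≠ 0 := by
            rw [div_one]
            apply ne_of_gt
            apply Real.sqrt_pos.mpr
            apply div_pos <;> linarith
          fun_prop (disch := assumption)
        have h5 : ContinuousAt (fun s : ℝ => ‖l‖ / s) 1 := by fun_prop (disch := norm_num)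
        exact ContinuousAt.comp (g := Real.artanh) (f := fun s : ℝ => ‖l‖ / s) h2 h5
      have h2 := h1.tendsto
      simp only [div_one] at h2
      exact ((ENNReal.continuous_ofReal.tendsto _).comp h2).mono_left nhdsWithin_le_nhds
    have hev : ∀ᶠ s : ℝ in 𝓝[<] 1, ENNReal.ofReal (Real.artanh (‖l‖ / s)) < b :=
      hcont.eventually (gt_mem_nhds hlb)
    have hev2 : ∀ᶠ s : ℝ in 𝓝[<] 1, ‖l‖ < s :=
      nhdsWithin_le_nhds (lt_mem_nhds hl)
    obtain ⟨s, hs1, hs2, hs3⟩ := (hev.and (hev2.and self_mem_nhdsWithin)).exists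
    have hs3 : s < 1 := hs3
    have hs0 : 0 < s := hlp.trans hs2
    -- the compact image
    set K : Set E := f '' closedBall 0 s with hK
    have hsub : closedBall (0 : ℂ) s ⊆ ball 0 1 := closedBall_subset_ball hs3
    have hKc : IsCompact K := (isCompact_closedBall 0 s).image_of_continuousOn
      (hfd.continuousOn.mono hsub)
    have hKD : K ⊆ D := by
      rintro _ ⟨ζ, hζ, rfl⟩
      exact hfm (hsub hζ)
    obtain ⟨η, hη, hηD⟩ := hKc.exists_thickening_subset_open hD hKD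
    have hns : ‖(s : ℂ)‖ = s := by simp [abs_of_pos hs0]
    have hnl : ‖l / (s : ℂ)‖ = ‖l‖ / s := by rw [norm_div, hns]
    have hopen : ∀ᶠ p : E × E in 𝓝 (z, w),
        ‖p.1 - z‖ * (1 + 1 / ‖l / (s : ℂ)‖) + ‖p.2 - w‖ / ‖l / (s : ℂ)‖ < η := by
      have : ContinuousAt (fun p : E × E => ‖p.1 - z‖ * (1 + 1 / ‖l / (s : ℂ)‖) +
          ‖p.2 - w‖ / ‖l / (s : ℂ)‖) (z, w) := by
        fun_prop
      apply this.eventually_lt continuousAt_const
      simpa using hη
    filter_upwards [hopen] with p hp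
    have hsc : (s : ℂ) ≠ 0 := by exact_mod_cast hs0.ne'
    have hmap : MapsTo (fun ζ : ℂ => (s : ℂ) * ζ) (ball 0 1) (closedBall 0 s) := by
      intro ζ hζ
      have hζ1 : ‖ζ‖ < 1 := by simpa using hζ
      rw [mem_closedBall_zero_iff, norm_mul, hns]
      nlinarith
    refine lt_of_le_of_lt (correct (D := D) (f := fun ζ => f (s * ζ)) (z := z) (w := w)
      (l := l / s) (η := η) ?_ (div_ne_zero hl0 hsc) ?_ ?_ ?_ ?_ hp) ?_
    · exact hfd.comp (Differentiable.differentiableOn (by fun_prop)) (fun ζ hζ => hsub (hmap hζ))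
    · rw [hnl, div_lt_one hs0]; exact hs2
    · intro ζ hζ
      refine Subset.trans ?_ hηD
      exact ball_subset_thickening (mem_image_of_mem f (hmap hζ)) η
    · simp [h0]
    · show f ((s : ℂ) * (l / s)) = w
      rw [mul_div_cancel₀ _ hsc]; exact h1
    · rw [hnl]; exact hs1

end General

end Pool.Agent.R234.Lem
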