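import Pool.Agent.R234.Lem.A

set_option autoImplicit false

open Metric Set Filter Topology
open scoped ContDiff ENNReal

namespace Pool.Agent.R234.Lem

variable {E : Type*} [NormedAddCommGroup E] [InnerProductSpace ℂ E]

/-- a one-sided Schwarz-Pick (Harnack) bound -/
lemma harnack {g : ℂ → ℂ} (hg : DifferentiableOn ℂ g (ball 0 1))
    (hre : ∀ ζ ∈ ball (0 : ℂ) 1, (g ζ).re ≤ 1) (h0 : (g 0).re < 1) {ζ : ℂ} (hζ : ‖ζ‖ < 1) :
    (g ζ).re ≤ 1 - (1 - (g 0).re) * ((1 - ‖ζ‖) / (1 + ‖ζ‖)) := by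
  set M : ℝ := 1 - (g 0).re with hM
  have hM0 : 0 < M := by rw [hM]; linarith
  have hG : DifferentiableOn ℂ (fun x => g x - g 0) (ball 0 1) := hg.sub_const _
  have hGne : ∀ x ∈ ball (0 : ℂ) 1, (2 * (M : ℂ) - (g x - g 0)) ≠ 0 := by
    intro x hx h
    have h1 := congrArg Complex.re h
    have h2 := hre x hx
    simp at h1
    linarith
  have h1 : ‖(g ζ - g 0) / (2 * (M : ℂ) - (g ζ - g 0))‖ ≤ ‖ζ‖ := by
    refine Complex.norm_le_norm_of_mapsTo_ball
      (f := fun x => (g x - g 0) / (2 * (M : ℂ) - (g x - g 0))) (R := 1)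
      (hG.div (hG.const_sub _) hGne) ?_ (by simp) hζ
    intro x hx
    rw [mem_closedBall_zero_iff, norm_div, div_le_one (norm_pos_iff.mpr (hGne x hx))]
    have h2 : (g x - g 0).re ≤ M := by
      have := hre x hx
      rw [Complex.sub_re, hM]; linarith
    rw [← sq_le_sq₀ (by positivity) (by positivity), Complex.sq_norm, Complex.sq_norm,
      Complex.normSq_apply, Complex.normSq_apply]
    generalize g x - g 0 = y at h2 ⊢
    simp
    nlinarith
  set G : ℂ := g ζ - g 0 with hGdef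
  have hGre : G.re ≤ M := by
    have := hre ζ (by simpa using hζ)
    rw [hGdef, Complex.sub_re, hM]; linarith
  have hne : (2 * (M : ℂ) - G) ≠ 0 := hGne ζ (by simpa using hζ)
  rw [norm_div, div_le_iff₀ (norm_pos_iff.mpr hne)] at h1
  have h2 : ‖G‖ ≤ ‖ζ‖ * ‖2 * (M : ℂ) - G‖ := by simpa using h1
  have h3 : ‖G‖ ^ 2 ≤ ‖ζ‖ ^ 2 * ‖2 * (M : ℂ) - G‖ ^ 2 := by
    rw [← mul_pow]; gcongr
  rw [Complex.sq_norm G, Complex.sq_norm (2 * (M : ℂ) - G), Complex.normSq_apply,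
    Complex.normSq_apply] at h3
  simp at h3
  have h4 : ‖ζ‖ ^ 2 ≤ 1 := by
    have := norm_nonneg ζ
    nlinarith
  have h5 : G.re ^ 2 ≤ (‖ζ‖ * (2 * M - G.re)) ^ 2 := by
    nlinarith [sq_nonneg G.im, mul_nonneg (sub_nonneg.mpr h4) (sq_nonneg G.im)]
  have h6 : G.re ≤ ‖ζ‖ * (2 * M - G.re) := by
    refine (le_abs_self _).trans (abs_le_of_sq_le_sq h5 ?_)
    exact mul_nonneg (norm_nonneg _) (by linarith)
  have h7 : (g ζ).re = G.re + (1 - M) := by rw [hGdef, Complex.sub_re, hM]; ring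
  rw [h7]
  have h8 : 0 < 1 + ‖ζ‖ := by positivity
  have h9 : G.re ≤ M - M * ((1 - ‖ζ‖) / (1 + ‖ζ‖)) := by
    rw [mul_div_assoc', ← sub_nonneg]
    have : M - M * (1 - ‖ζ‖) / (1 + ‖ζ‖) - G.re
      = (‖ζ‖ * (2 * M - G.re) - G.re) / (1 + ‖ζ‖) := by
      field_simp; ring
    rw [this]
    exact div_nonneg (by linarith) h8.le
  linarith

/-- discs in the unit ball stay away from the unit sphere -/
lemma norm_le_of_disc {f : ℂ → E} (hf : DifferentiableOn ℂ f (ball 0 1))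
    (hm : ∀ ζ ∈ ball (0 : ℂ) 1, ‖f ζ‖ < 1) {s : ℝ} (hs1 : s < 1) {ζ : ℂ}
    (hζ : ‖ζ‖ ≤ s) : ‖f ζ‖ ≤ 1 - (1 - ‖f 0‖) * ((1 - s) / (1 + s)) := by
  have hs0 : 0 ≤ s := (norm_nonneg ζ).trans hζ
  have h00 : ‖f 0‖ < 1 := hm 0 (by simp)
  rcases eq_or_ne (f ζ) 0 with h | h
  · rw [h, norm_zero]
    have h1 : (1 - s) / (1 + s) ≤ 1 := by
      rw [div_le_one (by linarith)]; linarith
    have h2 : 0 ≤ (1 - s) / (1 + s) := div_nonneg (by linarith) (by linarith)
    have h3 := norm_nonneg (f 0)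
    nlinarith
  · set v : E := f ζ with hv
    have hvp : 0 < ‖v‖ := norm_pos_iff.mpr h
    set g : ℂ → ℂ := fun x => inner ℂ v (f x) / (‖v‖ : ℂ) with hg
    have hgb : ∀ x, ‖g x‖ ≤ ‖f x‖ := by
      intro x
      rw [hg]
      simp only [norm_div, Complex.norm_real, norm_norm]
      rw [div_le_iff₀ hvp, mul_comm]
      exact norm_inner_le_norm v (f x)
    have hgd : DifferentiableOn ℂ g (ball 0 1) := by
      apply DifferentiableOn.div_const
      exact (innerSL ℂ v).differentiable.comp_differentiableOn hf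
    have h1 := harnack hgd (fun x hx => (Complex.re_le_norm _).trans ((hgb x).trans (hm x hx).le))
      (lt_of_le_of_lt (Complex.re_le_norm _) ((hgb 0).trans_lt h00)) (ζ := ζ) (hζ.trans_lt hs1)
    have h2 : (g ζ).re = ‖v‖ := by
      have : g ζ = (‖v‖ : ℂ) := by
        rw [hg]
        simp only [← hv]
        rw [inner_self_eq_norm_sq_to_K]
        have : (‖v‖ : ℂ) ≠ 0 := by exact_mod_cast hvp.ne'
        field_simp
        simp
      rw [this, Complex.ofReal_re]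
    rw [h2] at h1
    refine h1.trans ?_
    have h3 : (g 0).re ≤ ‖f 0‖ := (Complex.re_le_norm _).trans (hgb 0)
    have h4 : (1 - s) / (1 + s) ≤ (1 - ‖ζ‖) / (1 + ‖ζ‖) := by
      have := norm_nonneg ζ
      rw [div_le_div_iff₀ (by linarith) (by linarith)]
      nlinarith
    have h5 : 0 ≤ (1 - s) / (1 + s) := div_nonneg (by linarith) (by linarith)
    have h6 : (1 - ‖f 0‖) * ((1 - s) / (1 + s)) ≤ (1 - (g 0).re) * ((1 - ‖ζ‖) / (1 + ‖ζ‖)) := by
      gcongr
      linarith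
    linarith

end Pool.Agent.R234.Lem
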