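import Pool.Agent.R234.Lem.B

set_option autoImplicit false

open Metric Set Filter Topology
open scoped ContDiff ENNReal

namespace Pool.Agent.R234.Lem

variable {E : Type*} [NormedAddCommGroup E] [InnerProductSpace ℂ E]

/-- the spherical shell -/
def shell (E : Type*) [NormedAddCommGroup E] : Set E := {x | 1 / 2 < ‖x‖ ∧ ‖x‖ < 1}

/-- the multiplier -/
noncomputable def mult (z w : E) (N : ℕ) (x : E) : ℂ :=
  (1 - (inner ℂ z x / (‖z‖ : ℂ) ^ 2) ^ N) * (1 - (inner ℂ w x / (‖w‖ : ℂ) ^ 2) ^ N)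

lemma mult_left {z : E} (hz : z ≠ 0) (w : E) (N : ℕ) : mult z w N z = 0 := by
  have h : inner ℂ z z / (‖z‖ : ℂ) ^ 2 = 1 := by
    rw [inner_self_eq_norm_sq_to_K]
    apply div_self
    have : (‖z‖ : ℂ) ≠ 0 := by exact_mod_cast (norm_pos_iff.mpr hz).ne'
    exact pow_ne_zero _ this
  rw [mult, h]; simp

lemma mult_right {w : E} (hw : w ≠ 0) (z : E) (N : ℕ) : mult z w N w = 0 := by
  have h : inner ℂ w w / (‖w‖ : ℂ) ^ 2 = 1 := by
    rw [inner_self_eq_norm_sq_to_K]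
    apply div_self
    have : (‖w‖ : ℂ) ≠ 0 := by exact_mod_cast (norm_pos_iff.mpr hw).ne'
    exact pow_ne_zero _ this
  rw [mult, h]; simp

lemma differentiable_mult (z w : E) (N : ℕ) : Differentiable ℂ (mult z w N) := by
  have h1 : Differentiable ℂ (fun x : E => inner ℂ z x) := (innerSL ℂ z).differentiable
  have h2 : Differentiable ℂ (fun x : E => inner ℂ w x) := (innerSL ℂ w).differentiable
  unfold mult
  fun_prop

lemma norm_P_le {z : E} {α r : ℝ} (hα : 0 < α) (hz : α ≤ ‖z‖) {x : E} (hx : ‖x‖ ≤ r) :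
    ‖inner ℂ z x / (‖z‖ : ℂ) ^ 2‖ ≤ r / α := by
  have hz0 : 0 < ‖z‖ := hα.trans_le hz
  rw [norm_div, norm_pow, Complex.norm_real, norm_norm]
  calc ‖inner ℂ z x‖ / ‖z‖ ^ 2 ≤ (‖z‖ * ‖x‖) / ‖z‖ ^ 2 := by
        gcongr; exact norm_inner_le_norm z x
    _ = ‖x‖ / ‖z‖ := by field_simp
    _ ≤ r / α := by
        have := (norm_nonneg x).trans hx
        gcongr

lemma mult_re {z w : E} {α r : ℝ} (hα : 0 < α) (hz : α ≤ ‖z‖) (hw : α ≤ ‖w‖) {N : ℕ}
    (hN : (r / α) ^ N ≤ 1 / 8) {x : E} (hx : ‖x‖ ≤ r) : 1 / 2 ≤ (mult z w N x).re := by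
  set a : ℂ := (inner ℂ z x / (‖z‖ : ℂ) ^ 2) ^ N with ha
  set b : ℂ := (inner ℂ w x / (‖w‖ : ℂ) ^ 2) ^ N with hb
  have h1 : ‖a‖ ≤ 1 / 8 := by
    rw [ha, norm_pow]
    exact (pow_le_pow_left₀ (norm_nonneg _) (norm_P_le hα hz hx) N).trans hN
  have h2 : ‖b‖ ≤ 1 / 8 := by
    rw [hb, norm_pow]
    exact (pow_le_pow_left₀ (norm_nonneg _) (norm_P_le hα hw hx) N).trans hN
  have h3 : mult z w N x = 1 + (-a - b + a * b) := by rw [mult, ← ha, ← hb]; ring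
  have h4 : ‖-a - b + a * b‖ ≤ 1 / 2 := by
    calc ‖-a - b + a * b‖ ≤ ‖-a - b‖ + ‖a * b‖ := norm_add_le _ _
      _ ≤ (‖-a‖ + ‖b‖) + ‖a‖ * ‖b‖ := by rw [norm_mul]; gcongr; exact norm_sub_le _ _
      _ ≤ (1 / 8 + 1 / 8) + 1 / 8 * (1 / 8) := by rw [norm_neg]; gcongr
      _ ≤ 1 / 2 := by norm_num
  have h5 := Complex.abs_re_le_norm (-a - b + a * b)
  have h6 := abs_le.mp (h5.trans h4)
  rw [h3, Complex.add_re, Complex.one_re]
  linarith [h6.1]

lemma mult_norm {z w : E} {α : ℝ} (hα : 1 / 2 ≤ α) (hz : α ≤ ‖z‖) (hw : α ≤ ‖w‖) (N : ℕ)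
    {x : E} (hx : ‖x‖ ≤ 1) : ‖mult z w N x‖ ≤ (1 + 2 ^ N) ^ 2 := by
  have h0 : (1 : ℝ) / α ≤ 2 := by rw [div_le_iff₀ (by linarith)]; linarith
  have h1 : ‖(inner ℂ z x / (‖z‖ : ℂ) ^ 2) ^ N‖ ≤ 2 ^ N := by
    rw [norm_pow]
    exact pow_le_pow_left₀ (norm_nonneg _) ((norm_P_le (by linarith) hz hx).trans h0) N
  have h2 : ‖(inner ℂ w x / (‖w‖ : ℂ) ^ 2) ^ N‖ ≤ 2 ^ N := by
    rw [norm_pow]
    exact pow_le_pow_left₀ (norm_nonneg _) ((norm_P_le (by linarith) hw hx).trans h0) N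
  rw [mult, norm_mul, sq (1 + 2 ^ N : ℝ)]
  refine mul_le_mul ?_ ?_ (norm_nonneg _) (by positivity)
  · refine (norm_sub_le _ _).trans ?_
    rw [norm_one]; linarith
  · refine (norm_sub_le _ _).trans ?_
    rw [norm_one]; linarith

/-- the pushing map -/
noncomputable def push (z w : E) (N : ℕ) (t : ℝ) (x : E) : E := (1 + (t : ℂ) * mult z w N x) • x

lemma push_left {z : E} (hz : z ≠ 0) (w : E) (N : ℕ) (t : ℝ) : push z w N t z = z := by
  rw [push, mult_left hz]; simp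

lemma push_right {w : E} (hw : w ≠ 0) (z : E) (N : ℕ) (t : ℝ) : push z w N t w = w := by
  rw [push, mult_right hw]; simp

lemma differentiable_push (z w : E) (N : ℕ) (t : ℝ) : Differentiable ℂ (push z w N t) := by
  have := differentiable_mult z w N
  unfold push
  fun_prop

/-- the pushed point stays away from the boundary -/
lemma push_mem {z w : E} {α r ρ t : ℝ} (hα : 1 / 2 < α) (hz : α ≤ ‖z‖) (hw : α ≤ ‖w‖) {N : ℕ}
    (hN : (r / α) ^ N ≤ 1 / 8) (ht : 0 < t) (ht1 : t * ((1 + 2 ^ N) ^ 2 + 1) ≤ r - 1 / 2)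
    (ht2 : t * ((1 + 2 ^ N) ^ 2 + 1) ≤ 1 - ρ) {x : E} (hx : 1 / 2 < ‖x‖) (hx1 : ‖x‖ ≤ ρ)
    (hρ : ρ ≤ 1) : ball (push z w N t x) (t / 4) ⊆ shell E := by
  set C : ℝ := (1 + 2 ^ N) ^ 2 with hC
  have hC0 : 0 ≤ C := by positivity
  have hm := mult_norm hα.le hz hw N (hx1.trans hρ)
  rw [← hC] at hm
  have hnorm : ‖push z w N t x‖ = ‖1 + (t : ℂ) * mult z w N x‖ * ‖x‖ := by
    rw [push, norm_smul]
  have htm : ‖(t : ℂ) * mult z w N x‖ ≤ t * C := by
    rw [norm_mul, Complex.norm_real, Real.norm_of_nonneg ht.le]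
    gcongr
  have hup : ‖push z w N t x‖ ≤ 1 - t / 4 := by
    rw [hnorm]
    have h1 : ‖1 + (t : ℂ) * mult z w N x‖ ≤ 1 + t * C := by
      refine (norm_add_le _ _).trans ?_
      rw [norm_one]; gcongr
    calc ‖1 + (t : ℂ) * mult z w N x‖ * ‖x‖ ≤ (1 + t * C) * ρ := by gcongr
      _ = ρ + t * C * ρ := by ring
      _ ≤ ρ + t * C * 1 := by gcongr
      _ ≤ 1 - t / 4 := by nlinarith
  have hlow : 1 / 2 + t / 4 ≤ ‖push z w N t x‖ := by
    rw [hnorm]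
    rcases le_or_gt ‖x‖ r with hr | hr
    · have h1 := mult_re (by linarith) hz hw hN hr
      have h2 : 1 + t / 2 ≤ ‖1 + (t : ℂ) * mult z w N x‖ := by
        refine le_trans ?_ (Complex.re_le_norm _)
        simp
        nlinarith
      calc 1 / 2 + t / 4 = (1 + t / 2) * (1 / 2) := by ring
        _ ≤ ‖1 + (t : ℂ) * mult z w N x‖ * ‖x‖ := by gcongr
    · have h2 : 1 - t * C ≤ ‖1 + (t : ℂ) * mult z w N x‖ := by
        have := norm_sub_norm_le (1 : ℂ) (-((t : ℂ) * mult z w N x))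
        rw [norm_one, norm_neg, sub_neg_eq_add] at this
        linarith
      have h3 : (1 - t * C) * ‖x‖ ≤ ‖1 + (t : ℂ) * mult z w N x‖ * ‖x‖ := by gcongr
      have h4 : t * C * ‖x‖ ≤ t * C * 1 := by
        gcongr; exact hx1.trans hρ
      nlinarith
  intro y hy
  rw [mem_ball, dist_eq_norm] at hy
  have h1 := norm_sub_norm_le y (push z w N t x)
  have h2 := norm_sub_norm_le (push z w N t x) y
  rw [norm_sub_rev] at h2
  exact ⟨by linarith, by linarith⟩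

/-- the main step of lower semicontinuity -/
lemma lsc_main {z₀ w₀ : E} (hz₀ : z₀ ∈ shell E) (hw₀ : w₀ ∈ shell E) (hne : z₀ ≠ w₀) {s : ℝ}
    (hs0 : 0 < s) (hs1 : s < 1) : ∀ᶠ p : E × E in 𝓝 (z₀, w₀), ∀ l : ℂ, ‖l‖ < s →
      (∃ f : ℂ → E, HolDisc (shell E) f ∧ f 0 = p.1 ∧ f l = p.2) →
      lempert (shell E) z₀ w₀ ≤ ENNReal.ofReal (Real.artanh (‖l‖ / s)) := by
  obtain ⟨hz1, hz2⟩ := hz₀
  obtain ⟨hw1, hw2⟩ := hw₀
  set α₀ : ℝ := min ‖z₀‖ ‖w₀‖ with hα₀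
  have hα₀1 : 1 / 2 < α₀ := lt_min hz1 hw1
  set α : ℝ := (1 / 2 + α₀) / 2 with hα
  have hα1 : 1 / 2 < α := by rw [hα]; linarith
  have hα2 : α < α₀ := by rw [hα]; linarith
  set r : ℝ := (1 / 2 + α) / 2 with hr
  have hr1 : 1 / 2 < r := by rw [hr]; linarith
  have hr2 : r < α := by rw [hr]; linarith
  obtain ⟨N, hN⟩ := exists_pow_lt_of_lt_one (show (0 : ℝ) < 1 / 8 by norm_num)
    (show r / α < 1 by rw [div_lt_one (by linarith)]; exact hr2)
  set β : ℝ := (1 + ‖z₀‖) / 2 with hβ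
  have hβ1 : β < 1 := by rw [hβ]; linarith
  have hβ2 : ‖z₀‖ < β := by rw [hβ]; linarith
  set q : ℝ := (1 - s) / (1 + s) with hq
  have hq0 : 0 < q := div_pos (by linarith) (by linarith)
  set ρ : ℝ := 1 - (1 - β) * q with hρ
  have hρ1 : ρ < 1 := by
    have : 0 < (1 - β) * q := mul_pos (by linarith) hq0
    rw [hρ]; linarith
  set C : ℝ := (1 + 2 ^ N) ^ 2 with hC
  have hC0 : 0 ≤ C := by positivity
  set t : ℝ := min (r - 1 / 2) (1 - ρ) / (C + 1) with ht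
  have hmin : 0 < min (r - 1 / 2) (1 - ρ) := lt_min (by linarith) (by linarith)
  have ht0 : 0 < t := div_pos hmin (by linarith)
  have htC : t * (C + 1) = min (r - 1 / 2) (1 - ρ) := by
    rw [ht]; field_simp
  have ht1 : t * (C + 1) ≤ r - 1 / 2 := htC.trans_le (min_le_left _ _)
  have ht2 : t * (C + 1) ≤ 1 - ρ := htC.trans_le (min_le_right _ _)
  set d : ℝ := ‖z₀ - w₀‖ with hd
  have hd0 : 0 < d := norm_pos_iff.mpr (sub_ne_zero.mpr hne)
  have e1 : ∀ᶠ p : E × E in 𝓝 (z₀, w₀), α < ‖p.1‖ := by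
    have : ContinuousAt (fun p : E × E => ‖p.1‖) (z₀, w₀) := by fun_prop
    exact this.eventually (lt_mem_nhds (hα2.trans_le (min_le_left _ _)))
  have e2 : ∀ᶠ p : E × E in 𝓝 (z₀, w₀), α < ‖p.2‖ := by
    have : ContinuousAt (fun p : E × E => ‖p.2‖) (z₀, w₀) := by fun_prop
    exact this.eventually (lt_mem_nhds (hα2.trans_le (min_le_right _ _)))
  have e3 : ∀ᶠ p : E × E in 𝓝 (z₀, w₀), ‖p.1‖ < β := by
    have : ContinuousAt (fun p : E × E => ‖p.1‖) (z₀, w₀) := by fun_prop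
    exact this.eventually (gt_mem_nhds hβ2)
  have e4 : ∀ᶠ p : E × E in 𝓝 (z₀, w₀), d / 2 < ‖p.1 - p.2‖ := by
    have : ContinuousAt (fun p : E × E => ‖p.1 - p.2‖) (z₀, w₀) := by fun_prop
    exact this.eventually (lt_mem_nhds (by simp only [← hd]; linarith))
  have e5 : ∀ᶠ p : E × E in 𝓝 (z₀, w₀),
      ‖z₀ - p.1‖ * (1 + 1 / (d / 4)) + ‖w₀ - p.2‖ / (d / 4) < t / 4 := by
    have : ContinuousAt (fun p : E × E => ‖z₀ - p.1‖ * (1 + 1 / (d / 4)) +
        ‖w₀ - p.2‖ / (d / 4)) (z₀, w₀) := by fun_prop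
    refine this.eventually (gt_mem_nhds ?_)
    simp only [sub_self, norm_zero, zero_mul, zero_div, add_zero]
    linarith
  filter_upwards [e1, e2, e3, e4, e5] with p p1 p2 p3 p4 p5
  rintro l hl ⟨f, ⟨hfd, hfm⟩, h0, h1⟩
  have hp1 : p.1 ≠ 0 := norm_pos_iff.mp (by linarith)
  have hp2 : p.2 ≠ 0 := norm_pos_iff.mp (by linarith)
  have hl1 : ‖l‖ < 1 := hl.trans hs1
  -- Schwarz
  have hsch : ‖f l - f 0‖ ≤ 2 * ‖l‖ := by
    have := Complex.dist_le_div_mul_dist_of_mapsTo_ball (c := (0 : ℂ)) (R₁ := 1) (R₂ := 2) hfd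
      (fun x hx => by
        rw [mem_closedBall, dist_eq_norm]
        refine (norm_sub_le _ _).trans ?_
        have h1 := (hfm hx).2
        have h2 := (hfm (mem_ball_self one_pos : (0 : ℂ) ∈ ball 0 1)).2
        linarith) (show l ∈ ball (0 : ℂ) 1 by simpa using hl1)
    simpa [dist_eq_norm] using this
  have hld : d / 4 < ‖l‖ := by
    rw [h0, h1, norm_sub_rev] at hsch
    linarith
  have hl0 : 0 < ‖l‖ := by linarith
  have hs : ‖(s : ℂ)‖ = s := by simp [abs_of_pos hs0]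
  have hsc : (s : ℂ) ≠ 0 := by exact_mod_cast hs0.ne'
  have hnl : ‖l / (s : ℂ)‖ = ‖l‖ / s := by rw [norm_div, hs]
  have hmap : ∀ ζ ∈ ball (0 : ℂ) 1, ‖(s : ℂ) * ζ‖ ≤ s := by
    intro ζ hζ
    have hζ1 : ‖ζ‖ < 1 := by simpa using hζ
    rw [norm_mul, hs]
    have h9 : s * ‖ζ‖ ≤ s * 1 := mul_le_mul_of_nonneg_left hζ1.le hs0.le
    linarith
  have hmem : ∀ ζ ∈ ball (0 : ℂ) 1, (s : ℂ) * ζ ∈ ball (0 : ℂ) 1 := by
    intro ζ hζ
    rw [mem_ball_zero_iff]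
    exact (hmap ζ hζ).trans_lt hs1
  have hldl : d / 4 ≤ ‖l‖ / s := by
    rw [le_div_iff₀ hs0]
    have h9 : d / 4 * s ≤ d / 4 * 1 := mul_le_mul_of_nonneg_left hs1.le (by linarith)
    linarith
  have key := correct (D := shell E) (f := fun ζ => push p.1 p.2 N t (f (s * ζ))) (z := p.1)
    (w := p.2) (z' := z₀) (w' := w₀) (l := l / s) (η := t / 4) ?_ ?_ ?_ ?_ ?_ ?_ ?_
  · rwa [hnl] at key
  · apply (differentiable_push _ _ _ _).comp_differentiableOn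
    exact hfd.comp (Differentiable.differentiableOn (by fun_prop)) hmem
  · exact div_ne_zero (norm_pos_iff.mp hl0) hsc
  · rw [hnl, div_lt_one hs0]; exact hl
  · intro ζ hζ
    refine push_mem hα1 p1.le p2.le hN.le ht0 ht1 ht2 (hfm (hmem ζ hζ)).1 ?_ hρ1.le
    refine (norm_le_of_disc hfd (fun x hx => (hfm hx).2) hs1 (hmap ζ hζ)).trans ?_
    rw [hρ, ← hq, h0]
    gcongr
  · simp only [mul_zero, h0]
    exact push_left hp1 _ _ _
  · show push p.1 p.2 N t (f ((s : ℂ) * (l / s))) = p.2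
    rw [mul_div_cancel₀ _ hsc, h1]
    exact push_right hp2 _ _ _
  · rw [hnl]
    refine lt_of_le_of_lt ?_ p5
    gcongr

lemma lsc {z₀ w₀ : E} (hz₀ : z₀ ∈ shell E) (hw₀ : w₀ ∈ shell E) {a : ℝ≥0∞}
    (ha : a < lempert (shell E) z₀ w₀) :
    ∀ᶠ p : E × E in 𝓝 (z₀, w₀), a < lempert (shell E) p.1 p.2 := by
  rcases eq_or_ne z₀ w₀ with rfl | hne
  · exfalso
    have : lempert (shell E) z₀ z₀ ≤ 0 := by
      refine (lempert_le (l := 0) (by simp) (f := fun _ => z₀)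
        ⟨differentiableOn_const z₀, fun _ _ => hz₀⟩ rfl rfl).trans ?_
      simp
    exact absurd (ha.trans_le this) (by simp)
  · obtain ⟨r₁, h1, h1'⟩ := ENNReal.lt_iff_exists_nnreal_btwn.mp ha
    obtain ⟨r₂, h2, h2'⟩ := ENNReal.lt_iff_exists_nnreal_btwn.mp h1'
    have h12 : (r₁ : ℝ) < r₂ := by exact_mod_cast h2
    have hr1 : (0 : ℝ) < r₁ := by
      have : (0 : ℝ≥0∞) < r₁ := lt_of_le_of_lt bot_le h1
      exact_mod_cast this
    have hT : ∀ x : ℝ, Real.tanh x ∈ Ioo (-1 : ℝ) 1 := fun x =>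
      ⟨Real.neg_one_lt_tanh x, Real.tanh_lt_one x⟩
    have hT1 : 0 < Real.tanh r₁ := by
      have := (Real.artanh_lt_artanh_iff (x := 0) (y := Real.tanh r₁) (by norm_num) (hT _)).mp
        (by rw [Real.artanh_zero, Real.artanh_tanh]; exact hr1)
      exact this
    have hT2 : Real.tanh r₁ < Real.tanh r₂ :=
      (Real.artanh_lt_artanh_iff (hT _) (hT _)).mp (by
        rw [Real.artanh_tanh, Real.artanh_tanh]; exact h12)
    have hT20 : 0 < Real.tanh r₂ := hT1.trans hT2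
    set s : ℝ := Real.tanh r₁ / Real.tanh r₂ with hs
    have hs0 : 0 < s := div_pos hT1 hT20
    have hs1 : s < 1 := (div_lt_one hT20).mpr hT2
    filter_upwards [lsc_main hz₀ hw₀ hne hs0 hs1] with p hp
    by_contra hcon
    have hlt : lempert (shell E) p.1 p.2 < r₁ := lt_of_le_of_lt (not_lt.mp hcon) h1
    obtain ⟨l, hl, hf, hlr⟩ := lempert_lt_iff.mp hlt
    have hl3 : Real.artanh ‖l‖ < r₁ := by
      have := (ENNReal.ofReal_lt_iff_lt_toReal (Real.artanh_nonneg (norm_nonneg l))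
        ENNReal.coe_ne_top).mp hlr
      simpa using this
    have hl4 : ‖l‖ < Real.tanh r₁ :=
      (Real.artanh_lt_artanh_iff ⟨by linarith [norm_nonneg l], hl⟩ (hT _)).mp
        (by rw [Real.artanh_tanh]; exact hl3)
    have hl5 : ‖l‖ / s < Real.tanh r₂ := by
      rw [div_lt_iff₀ hs0, hs, mul_div_cancel₀ _ hT20.ne']; exact hl4
    have hl6 : ‖l‖ < s := by
      rw [div_lt_iff₀ hs0] at hl5
      have := (hT r₂).2
      nlinarith
    have h3 := hp l hl6 hf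
    have h4 : Real.artanh (‖l‖ / s) ≤ r₂ := by
      have h5 : 0 ≤ ‖l‖ / s := div_nonneg (norm_nonneg _) hs0.le
      have := Real.artanh_le_artanh (x := ‖l‖ / s) (y := Real.tanh r₂) (by linarith) (hT _).2 hl5.le
      rwa [Real.artanh_tanh] at this
    have h6 : lempert (shell E) z₀ w₀ ≤ r₂ := by
      refine h3.trans ?_
      rw [← ENNReal.ofReal_coe_nnreal]
      exact ENNReal.ofReal_le_ofReal h4
    exact absurd (h2'.trans_le h6) (lt_irrefl _)

omit [InnerProductSpace ℂ E] in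
lemma isOpen_shell : IsOpen (shell E) := by
  have h1 : IsOpen {x : E | 1 / 2 < ‖x‖} := isOpen_lt continuous_const continuous_norm
  have h2 : IsOpen {x : E | ‖x‖ < 1} := isOpen_lt continuous_norm continuous_const
  exact h1.inter h2

lemma continuousOn_lempert :
    ContinuousOn (fun p : E × E => lempert (shell E) p.1 p.2) (shell E ×ˢ shell E) := by
  rintro ⟨z, w⟩ ⟨hz, hw⟩
  apply ContinuousAt.continuousWithinAt
  refine tendsto_order.2 ⟨fun a ha => lsc hz hw ha, fun b hb => usc isOpen_shell hz hb⟩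

end Pool.Agent.R234.Lem
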