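import Pool.Agent.R234.Lem.C

set_option autoImplicit false

open Metric Set Filter Topology
open scoped ContDiff ENNReal

namespace Pool.Agent.R234.Lem

lemma isBounded_shell (E : Type*) [NormedAddCommGroup E] : Bornology.IsBounded (shell E) :=
  (isBounded_ball (x := (0 : E)) (r := 1)).subset fun x hx => by simpa using hx.2

lemma isConnected_shell (E : Type*) [NormedAddCommGroup E] [NormedSpace ℝ E]
    (h : 1 < Module.rank ℝ E) : IsConnected (shell E) := by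
  have h1 : IsConnected (Ioo (1 / 2 : ℝ) 1) := isConnected_Ioo (by norm_num)
  have h2 : IsConnected (sphere (0 : E) 1) := isConnected_sphere h 0 (by norm_num)
  have h3 := (h1.prod h2).image (fun p : ℝ × E => p.1 • p.2) (by fun_prop)
  convert h3
  ext x
  simp only [mem_image, mem_prod, mem_Ioo, mem_sphere_zero_iff_norm, Prod.exists]
  constructor
  · rintro ⟨h1, h2⟩
    have hx : ‖x‖ ≠ 0 := by linarith
    refine ⟨‖x‖, ‖x‖⁻¹ • x, ⟨⟨h1, h2⟩, ?_⟩, ?_⟩
    · rw [norm_smul, norm_inv, norm_norm, inv_mul_cancel₀ hx]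
    · rw [smul_smul, mul_inv_cancel₀ hx, one_smul]
  · rintro ⟨a, y, ⟨⟨h1, h2⟩, h3⟩, rfl⟩
    have : ‖a • y‖ = a := by
      rw [norm_smul, h3, mul_one, Real.norm_of_nonneg (by linarith)]
    exact ⟨by rw [this]; exact h1, by rw [this]; exact h2⟩

lemma frontier_shell {E : Type*} [NormedAddCommGroup E] {p : E} (hp : p ∈ frontier (shell E)) :
    ‖p‖ = 1 / 2 ∨ ‖p‖ = 1 := by
  have h1 : p ∈ closure (shell E) := frontier_subset_closure hp
  have h2 : p ∉ shell E := by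
    rw [isOpen_shell.frontier_eq] at hp
    exact hp.2
  have h3 : closure (shell E) ⊆ {x : E | 1 / 2 ≤ ‖x‖} ∩ {x : E | ‖x‖ ≤ 1} := by
    apply closure_minimal
    · intro x hx
      exact ⟨hx.1.le, hx.2.le⟩
    · exact (isClosed_le continuous_const continuous_norm).inter
        (isClosed_le continuous_norm continuous_const)
  obtain ⟨h4, h5⟩ := h3 h1
  rcases eq_or_lt_of_le (show 1 / 2 ≤ ‖p‖ from h4) with h | h
  · exact Or.inl h.symm
  · rcases eq_or_lt_of_le (show ‖p‖ ≤ 1 from h5) with h' | h'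
    · exact Or.inr h'
    · exact absurd ⟨h, h'⟩ h2

lemma smoothBoundary_shell (E : Type*) [NormedAddCommGroup E] [InnerProductSpace ℂ E] :
    SmoothBoundary (shell E) := by
  let : InnerProductSpace ℝ E := InnerProductSpace.rclikeToReal ℂ E
  have hfd : ∀ x : E, HasFDerivAt (fun y : E => ‖y‖ ^ 2) (2 • innerSL ℝ x) x := fun x =>
    (hasStrictFDerivAt_norm_sq x).hasFDerivAt
  have hne : ∀ x : E, x ≠ 0 → fderiv ℝ (fun y : E => ‖y‖ ^ 2) x ≠ 0 := by
    intro x hx h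
    have h1 := (hfd x).fderiv
    rw [h] at h1
    have h2 := congrArg (fun L : E →L[ℝ] ℝ => L x) h1
    simp at h2
    exact hx h2
  have hsm : ContDiff ℝ ∞ (fun y : E => ‖y‖ ^ 2) := contDiff_norm_sq ℝ
  intro p hp
  rcases frontier_shell hp with h | h
  · refine ⟨{x | 0 < ‖x‖ ∧ ‖x‖ < 1}, fun x => 1 / 4 - ‖x‖ ^ 2, ?_, ?_, ?_, ?_, ?_⟩
    · exact (isOpen_lt continuous_const continuous_norm).inter
        (isOpen_lt continuous_norm continuous_const)
    · constructor <;> rw [h] <;> norm_num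
    · exact (contDiff_const.sub hsm).contDiffOn
    · intro x hx
      rw [fderiv_const_sub, neg_ne_zero]
      exact hne x (norm_pos_iff.mp hx.1)
    · ext x
      simp only [shell, mem_inter_iff, mem_ofPred_eq]
      constructor
      · rintro ⟨⟨h1, h2⟩, h3, h4⟩
        exact ⟨⟨h3, h4⟩, by nlinarith⟩
      · rintro ⟨⟨h1, h2⟩, h3⟩
        refine ⟨⟨?_, h2⟩, h1, h2⟩
        by_contra hc
        nlinarith
  · refine ⟨{x | 1 / 2 < ‖x‖}, fun x => ‖x‖ ^ 2 - 1, ?_, ?_, ?_, ?_, ?_⟩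
    · exact isOpen_lt continuous_const continuous_norm
    · rw [mem_ofPred_eq, h]; norm_num
    · exact (hsm.sub contDiff_const).contDiffOn
    · intro x hx
      rw [fderiv_sub_const]
      have : 1 / 2 < ‖x‖ := hx
      exact hne x (norm_pos_iff.mp (by linarith))
    · ext x
      simp only [shell, mem_inter_iff, mem_ofPred_eq]
      constructor
      · rintro ⟨⟨h1, h2⟩, h3⟩
        exact ⟨h3, by nlinarith⟩
      · rintro ⟨h1, h3⟩
        refine ⟨⟨h1, ?_⟩, h1⟩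
        by_contra hc
        nlinarith

/-- the shell is not pseudoconvex as soon as there are two orthonormal vectors -/
lemma not_pseudoconvex_shell {E : Type*} [NormedAddCommGroup E] [InnerProductSpace ℂ E]
    {e₀ e₁ : E} (h0 : ‖e₀‖ = 1) (h1 : ‖e₁‖ = 1) (h01 : inner ℂ e₀ e₁ = 0) :
    ¬ Pseudoconvex (shell E) := by
  rintro ⟨u, ⟨hc, hsub⟩, hK⟩
  have hnorm : ∀ (a : ℝ) (ζ : ℂ), ‖(a : ℂ) • e₀ + ζ • ((1 / 2 : ℂ) • e₁)‖ ^ 2
      = a ^ 2 + ‖ζ‖ ^ 2 / 4 := by
    intro a ζ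
    have h2 : inner ℂ ((a : ℂ) • e₀) (ζ • ((1 / 2 : ℂ) • e₁)) = 0 := by
      rw [inner_smul_left, inner_smul_right, inner_smul_right, h01]; simp
    rw [sq, norm_add_sq_eq_norm_sq_add_norm_sq_of_inner_eq_zero _ _ h2,
      norm_smul, norm_smul, norm_smul, h0, h1]
    simp
    ring_nf
  have hmem : ∀ (a : ℝ), 1 / 2 < a → a ≤ 3 / 5 → ∀ ζ : ℂ, ‖ζ‖ ≤ 1 →
      (a : ℂ) • e₀ + ζ • ((1 / 2 : ℂ) • e₁) ∈ shell E := by
    intro a ha1 ha2 ζ hζ
    have h3 := hnorm a ζ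
    have h4 := norm_nonneg ((a : ℂ) • e₀ + ζ • ((1 / 2 : ℂ) • e₁))
    have h5 := norm_nonneg ζ
    constructor <;> by_contra hc <;> nlinarith
  -- the compact set of all boundary circles
  set T : Set E := (fun q : ℝ × ℂ => (q.1 : ℂ) • e₀ + q.2 • ((1 / 2 : ℂ) • e₁)) ''
    (Icc (1 / 2 : ℝ) (3 / 5) ×ˢ sphere (0 : ℂ) 1) with hT
  have hTc : IsCompact T :=
    (isCompact_Icc.prod (isCompact_sphere 0 1)).image (by fun_prop)
  have hTD : T ⊆ shell E := by
    rintro _ ⟨⟨a, ζ⟩, ⟨⟨ha1, ha2⟩, hζ⟩, rfl⟩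
    have hζ : ‖ζ‖ = 1 := by simpa using hζ
    have h3 := hnorm a ζ
    have h4 := norm_nonneg ((a : ℂ) • e₀ + ζ • ((1 / 2 : ℂ) • e₁))
    rw [hζ] at h3
    simp only at ha1 ha2
    constructor <;> by_contra hc <;> simp only [not_lt] at hc <;> nlinarith
  obtain ⟨M, hM⟩ := hTc.exists_bound_of_continuousOn (hc.mono hTD)
  -- centers
  have hcen : ∀ a : ℝ, 1 / 2 < a → a ≤ 3 / 5 → u ((a : ℂ) • e₀) ≤ M := by
    intro a ha1 ha2
    refine (hsub ((a : ℂ) • e₀) ((1 / 2 : ℂ) • e₁) (hmem a ha1 ha2)).trans ?_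
    apply Real.circleAverage_mono_on_of_le_circle
    · apply ContinuousOn.circleIntegrable zero_le_one
      refine hc.comp (by fun_prop) ?_
      intro ζ hζ
      exact hmem a ha1 ha2 ζ (by simpa using (mem_sphere_zero_iff_norm.mp hζ).le)
    · intro ζ hζ
      rw [abs_one] at hζ
      exact (le_abs_self _).trans (hM _ ⟨(a, ζ), ⟨⟨ha1.le, ha2⟩, hζ⟩, rfl⟩)
  have hlim : Tendsto (fun a : ℝ => (a : ℂ) • e₀) (𝓝[>] (1 / 2)) (𝓝 (((1 / 2 : ℝ) : ℂ) • e₀)) := by
    apply Tendsto.mono_left _ nhdsWithin_le_nhds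
    apply Continuous.tendsto
    fun_prop
  have hmemK : ((1 / 2 : ℝ) : ℂ) • e₀ ∈ {z | z ∈ shell E ∧ u z ≤ M} := by
    apply (hK M).isClosed.mem_of_tendsto hlim
    have hev : ∀ᶠ a : ℝ in 𝓝[>] (1 / 2), a ≤ 3 / 5 :=
      nhdsWithin_le_nhds (Iic_mem_nhds (by norm_num))
    filter_upwards [hev, self_mem_nhdsWithin] with a ha1 ha2
    have ha2 : 1 / 2 < a := ha2
    refine ⟨?_, hcen a ha2 ha1⟩
    have := hmem a ha2 ha1 0 (by simp)
    simpa using this
  have := hmemK.1.1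
  rw [norm_smul, h0, Complex.norm_real] at this
  norm_num at this

end Pool.Agent.R234.Lem
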