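import Mathlib

/-! The Lempert function, pseudoconvexity, smooth boundaries. -/

set_option autoImplicit false

open Metric Set
open scoped ContDiff ENNReal

namespace Pool.Agent.R234.Lem

variable {E : Type*} [NormedAddCommGroup E] [NormedSpace ℂ E]

/-- `f` is a holomorphic map from the unit disc of `ℂ` to `D`. -/
def HolDisc (D : Set E) (f : ℂ → E) : Prop :=
  DifferentiableOn ℂ f (ball 0 1) ∧ MapsTo f (ball 0 1) D

/-- The Lempert function of `D`: the infimum of `tanh⁻¹ |l|` over the `l` in the unit disc for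
which some holomorphic map `f` of the unit disc to `D` has `f 0 = z` and `f l = w`
(`∞` if there is no such `l`). -/
noncomputable def lempert (D : Set E) (z w : E) : ℝ≥0∞ :=
  ⨅ (l : ℂ) (_ : ‖l‖ < 1) (_ : ∃ f : ℂ → E, HolDisc D f ∧ f 0 = z ∧ f l = w),
    ENNReal.ofReal (Real.artanh ‖l‖)

/-- `u` is a (real-valued) continuous plurisubharmonic function on `D`: it is continuous, and
`u (z)` is at most the average of `u` over the circle `z + e^{iθ} ξ` whenever the closed disc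
`{z + ζ ξ : |ζ| ≤ 1}` is contained in `D`. -/
def CPsh (D : Set E) (u : E → ℝ) : Prop :=
  ContinuousOn u D ∧ ∀ z ξ : E, (∀ ζ : ℂ, ‖ζ‖ ≤ 1 → z + ζ • ξ ∈ D) →
    u z ≤ Real.circleAverage (fun ζ : ℂ => u (z + ζ • ξ)) 0 1

/-- `D` is pseudoconvex: it has a continuous plurisubharmonic exhaustion function. -/
def Pseudoconvex (D : Set E) : Prop :=
  ∃ u : E → ℝ, CPsh D u ∧ ∀ c : ℝ, IsCompact {z | z ∈ D ∧ u z ≤ c}

/-- `D` has a `C^∞`-smooth boundary: near each boundary point it is given by `{ρ < 0}` for a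
`C^∞` function `ρ` with `dρ ≠ 0`. -/
def SmoothBoundary (D : Set E) : Prop :=
  ∀ p ∈ frontier D, ∃ (U : Set E) (ρ : E → ℝ), IsOpen U ∧ p ∈ U ∧ ContDiffOn ℝ ∞ ρ U ∧
    (∀ x ∈ U, fderiv ℝ ρ x ≠ 0) ∧ D ∩ U = {x | x ∈ U ∧ ρ x < 0}

end Pool.Agent.R234.Lem
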